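import Pool.Agent.Q7.CJ.Def
import Pool.Agent.Q7.LK.Stm2

/-!
# Project CJ (helper7): the Jacobians of `y² + D y = x^p` over number fields containing `μ_p`

GOAL (`S_JMAIN`).  `p` an odd prime, `F` any number field containing a primitive `p`-th root of unity `ζ`, `C_D : y² + D y = x^p` (genus `(p - 1)/2`), `J_D` its
Jacobian, `J_D(F)` = class group of `B = F[x, y] / (x^p - y² - D y)` (`BR p D`), `T` = class of the ideal of the point `(0, 0)`, of order `p`.  For a share of at least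
`1 - 1/(p-1) - ε` of the `D` of every family of project LK: `J_D(F) = ⟨T⟩ + p J_D(F)` (so `J_D(F)` is finite, by the theorem of Mordell and Weil).

Proof.  `G = ⟨σ⟩`, `σ x = ζ x` (`sg`).  For an ideal `I` of `B` let `nm I` be the norm of `y` from `B / I`: a homomorphism `δ : J_D(F) → F^* / F^*^p` (`S_NMM`, `S_NMP`,
`S_CLW`), which is zero on `(1 - σ) J_D(F)`, and conversely its kernel is `(1 - σ) J_D(F)` (`S_INJ`).  Over every field containing `ζ` the image of `δ` is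
isotropic for norms (`S_ORTH`): so over `F_v`, `v ∣ p`, it has at most `p^(1 + [F_v : ℚ_p] / 2)` elements; outside `p` it satisfies the conditions of LK.
The engine `S_SHARE` of LK gives the result.

Conventions: `Sim p D I J`: the ideals `I`, `J` belong to the same class.  `Nr p a b`: `b` is a norm from `L[X] / (X^p - a)`.
-/

set_option autoImplicit false

namespace Pool.Agent.Q7.CJ

open Polynomial NumberField IsDedekindDomain

/-! ## Norms from `L[X] / (X^p - a)` -/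

/-- JOB RS. Elementary properties of `Nr`.
Proof.  `K_a = K[X] / (X^p - a)`, `α` the class of `X`; `σ α = ζ α` is an automorphism of `K_a` over `K` and `N(z) = ∏_(i<p) σ^i z`.  (0) `b = β^p` or `a = α₀^p`, `α₀ ∈ K`: `Nr a b` (`N(β) = β^p`; resp.
`K_a ≅ K^p`, an element `z` with the values `b, 1, .., 1` at the `ζ^i α₀`).  (i) The key lemma (last but one clause): `V` of dimension `p` with `A^p = a`, `B^p = b`, `B A = ξ A B`.  If `b` is a `p`-th power:
`Nr a b` by (0).  Otherwise `K_b` is a field (`X_pow_sub_C_irreducible_of_prime`), `V` is a vector space over it (`X ↦ B`, `Module.compHom` / `AdjoinRoot.lift`), of dimension `1`; `0 ≠ v₀ ∈ V`,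
`A v₀ = γ v₀`, `γ ∈ K_b`; `A (f(B) v) = f(ξ⁻¹ B) A v`, so `a v₀ = A^p v₀ = (∏_(i<p) ρ^i γ) v₀`, `ρ X = ξ⁻¹ X`, `a = N(γ)`: `Nr b a`.  So: data `(V, A, B, a, b, ξ)` give `Nr b a`.  (ii) If `Nr a b`, `N(z) = b`, then
`V = K_a`, `A =` multiplication by `α`, `B = z σ` are such data with `ξ = ζ` (`B^p = N(z)`, `B A = ζ A B`), so `Nr b a`: this is the symmetry; together with (i) it gives the key lemma and the
last clause (`K_a ≅ K^p` as a vector space).  (iii) `Nr a ·` is multiplicative, by the symmetry also `Nr · b`; inverses; `Nr a b` only depends on the classes modulo `p`-th powers ((0)); `p` odd: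
`a = (a²)^((p+1)/2) a^(-p)`.  (iv) `N(1 - α) = 1 - a`, `N(α) = a` (`p` odd). -/
def S_RS : Prop := ∀ (p : ℕ) [Fact p.Prime], p ≠ 2 → ∀ (K : Type) [Field K] [CharZero K] (ζ : K), IsPrimitiveRoot ζ p →
  (∀ a b : K, a ≠ 0 → b ≠ 0 → Nr p a b → Nr p b a) ∧
  (∀ a b c : K, a ≠ 0 → b ≠ 0 → c ≠ 0 → Nr p a b → Nr p a c → Nr p a (b * c)) ∧
  (∀ a b c : K, a ≠ 0 → b ≠ 0 → c ≠ 0 → Nr p a c → Nr p b c → Nr p (a * b) c) ∧
  (∀ a b : K, a ≠ 0 → b ≠ 0 → Nr p a b → ∀ i j : ℤ, Nr p (a ^ i) (b ^ j)) ∧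
  (∀ a b s t : K, a ≠ 0 → b ≠ 0 → s ≠ 0 → t ≠ 0 → Nr p a b → Nr p (a * s ^ p) (b * t ^ p)) ∧
  (∀ a b : K, a ≠ 0 → b ≠ 0 → Nr p (a ^ 2) (b ^ 2) → Nr p a b) ∧
  (∀ a : K, a ≠ 0 → Nr p a a ∧ Nr p a 1 ∧ Nr p 1 a) ∧
  (∀ a : K, a ≠ 0 → a ≠ 1 → Nr p a (1 - a)) ∧
  (∀ (V : Type) [AddCommGroup V] [Module K V], Module.finrank K V = p → ∀ (A B : V →ₗ[K] V) (a b ξ : K), a ≠ 0 → b ≠ 0 →
    IsPrimitiveRoot ξ p → A ^ p = a • (1 : V →ₗ[K] V) → B ^ p = b • (1 : V →ₗ[K] V) → B * A = ξ • (A * B) → Nr p a b) ∧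
  (∀ a b : K, a ≠ 0 → b ≠ 0 → Nr p a b → ∃ A B : (Fin p → K) →ₗ[K] (Fin p → K),
    A ^ p = a • (1 : (Fin p → K) →ₗ[K] (Fin p → K)) ∧ B ^ p = b • (1 : (Fin p → K) →ₗ[K] (Fin p → K)) ∧ B * A = ζ • (A * B))

/-- JOB RT (uses `S_RS`). The sum of two trivial symbols.
Proof.  By the last clause of `S_RS` operators `A₁, B₁` on `V₁ = K^p` for `(a/c, b/c)` and `A₂, B₂` on `V₂` for `(a c, b c)`.  On `W = V₁ ⊗ V₂`, of dimension `p²`: `A = A₁ ⊗ A₂`, `B = B₁ ⊗ B₂`, `A^p = a²`, `B^p = b²`,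
`B A = ζ² A B`.  `U = A₁ ⊗ A₂⁻¹`, `S = B₁ ⊗ B₂⁻¹` (`A₂⁻¹ = (a c)⁻¹ A₂^(p-1)` etc.) commute with `A` and `B`, `U^p = S^p = c⁻²`, `S U = ζ² U S`.  `Q = S U⁻¹` satisfies `Q^p = 1` (`p` odd) and commutes with `A`,
`B`; `Q U = ζ² U Q`, so `U` maps the eigenspace `W_j = {Q w = ζ^j w}` isomorphically onto `W_(j+2)`; `W = ⊕ W_j` (`X^p - 1` splits with simple roots), `2` is invertible modulo `p`, so all
`W_j` have dimension `p`.  `A`, `B` act on `W_0`: by the key lemma of `S_RS` (`ξ = ζ²`) `Nr (a²) (b²)`, so `Nr a b`. -/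
def S_RT : Prop := ∀ (p : ℕ) [Fact p.Prime], p ≠ 2 → ∀ (K : Type) [Field K] [CharZero K] (ζ : K), IsPrimitiveRoot ζ p →
  ∀ a b c : K, a ≠ 0 → b ≠ 0 → c ≠ 0 → Nr p (a / c) (b / c) → Nr p (a * c) (b * c) → Nr p a b

/-- JOB RP. The projection formula and extension of the field.
Proof.  `a ∈ K`, `L_a = L[X] / (X^p - a)` is finite and free over `K_a = K[X] / (X^p - a)` (`L_a = L ⊗ K_a`).  `N_(L_a/L)(z) = b`: `N_(L/K)(b) = N_(L_a/K)(z) = N_(K_a/K)(N_(L_a/K_a)(z))` (transitivity of the norm for free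
algebras, `Algebra.norm_norm` or `LinearMap.det_restrictScalars`).  Second part: the image of `t` in `L_a` (`Algebra.norm` and base change, or the determinant of the same matrix). -/
def S_RP : Prop := ∀ (p : ℕ) [Fact p.Prime] (K L : Type) [Field K] [CharZero K] [Field L] [Algebra K L],
  (FiniteDimensional K L → ∀ (a : K) (b : L), a ≠ 0 → b ≠ 0 → Nr p (algebraMap K L a) b → Nr p a (Algebra.norm K b)) ∧
  ∀ a b : K, a ≠ 0 → Nr p a b → Nr p (algebraMap K L a) (algebraMap K L b)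

/-- JOB RPT (uses `S_RS`, `S_RT`). Two points of the curve `y² + D y = x^p` are orthogonal.
Proof.  First `Nr y D`: if `y = - D` then `Nr D D` and `-1 = (-1)^p`.  Otherwise `y + D = x^p / y ≠ 0`, and `Nr (- y / D) (1 + y / D)` (`S_RS`), that is up to `p`-th powers `Nr (y / D) (1 / (y D))`, so
`Nr (y / D) (y D)`, with `Nr (y / D) (y / D)`: `Nr (y / D) (y²)`, `Nr (y / D) y` (powers), with `Nr y y`: `Nr D y`, `Nr y D`.  Now `Nr y₁ y₂`: if `y₁ = y₂` clear; if one of them is `- D`: by the first part.  Otherwise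
`c = y₁ - y₂ ≠ 0`: `Nr (y₁ / c) (1 - y₁ / c) = Nr (y₁ / c) (- y₂ / c)`, so `Nr (y₁ / c) (y₂ / c)` (if `y₁ = c` then `y₂ = 0`, excluded), and in the same way, as `c = (y₁ + D) - (y₂ + D)` and `y_i + D = x_i^p / y_i`:
`Nr (1 / (y₁ c)) (1 / (y₂ c))`, so `Nr (y₁ c) (y₂ c)` (powers `-1`).  `S_RT`. -/
def S_RPT : Prop := ∀ (p : ℕ) [Fact p.Prime], p ≠ 2 → ∀ (K : Type) [Field K] [CharZero K] (ζ : K), IsPrimitiveRoot ζ p →
  ∀ D x₁ y₁ x₂ y₂ : K, D ≠ 0 → y₁ ≠ 0 → y₂ ≠ 0 → y₁ ^ 2 + D * y₁ = x₁ ^ p → y₂ ^ 2 + D * y₂ = x₂ ^ p →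
    Nr p y₁ y₂ ∧ Nr p y₁ D ∧ Nr p D y₁

/-! ## The coordinate ring and its ideals -/

/-- JOB DED. The coordinate ring is a Dedekind domain, its proper quotients are finite-dimensional.
Proof.  `B` is free over `L[y]` with the basis `1, x, .., x^(p-1)` (`AdjoinRoot.powerBasis'`), so noetherian and integral over `L[y]`, of dimension `≤ 1`.  Integrally closed: first let `ζ ∈ L`.  Let `z = ∑ a_i x^i`, `a_i ∈ L(y)`, be an
element of the field of fractions, integral over `B`, so over `L[y]`.  `p a_i x^i = ∑_j ζ^(-ij) σ^j z` is integral, so `(a_i x^i)^p = a_i^p f^i ∈ L[y]`, `f = y² + D y` squarefree (`D ≠ 0`), `0 ≤ i < p`, so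
`a_i ∈ L[y]`.  In general (`ζ ∉ L`): replace the automorphisms by the trace: `Tr(z x^(p-i)) = p a_i f` etc., or pass to `L(ζ)` (an element of `Frac B_L` integral over `B_L` lies in `B_(L(ζ)) ∩ Frac B_L = B_L`, freeness); or locally: the local
rings are principal: at the maximal ideals not containing `x` and `2 y + D` by the Jacobian criterion; the smoothness can also be used.  (Compare `Pool/Agent/Y723/HJ` for `y² = h(x)`.)  Quotients: `I ≠ ⊥` contains a nonzero norm `g(y)`, and `B / g B` is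
finite over `L[y] / g`. -/
def S_DED : Prop := ∀ (p : ℕ) [Fact p.Prime] [Fact (p ≠ 2)] (L : Type) [Field L] [CharZero L] (D : L), D ≠ 0 →
  IsDedekindDomain (BR p D) ∧ ∀ I : Ideal (BR p D), I ≠ ⊥ → FiniteDimensional L (BR p D ⧸ I)

/-- JOB NMM (uses `S_DED`). The value of `y` at ideals, and the points `T`, `- T`.
Proof.  `nm (I J)`: `0 → I / I J → B / I J → B / I → 0`, `I / I J ≅ B / J` as a `B`-module (Dedekind domain), the determinant of the multiplication by `y` is multiplicative in exact sequences (or: it suffices to treat `J` maximal; or use the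
unique factorization and the Chinese remainder theorem).  `nm I = 0` iff `y` is not a unit in `B / I` iff `I` is contained in a maximal ideal containing `y`, and this is `t1` (as `x^p = y (y + D)`).  `B / t2 ≅ L`, `y ↦ - D`.
`t1 * t2 = (x² , x y, x (y + D), y (y + D)) = (x)` as `D` is a unit and `y (y + D) = x^p`.  `t1^p = (y)`: locally at `t1` the ideal is generated by `x` and `y = x^p / (y + D)`. -/
def S_NMM : Prop := ∀ (p : ℕ) [Fact p.Prime] [Fact (p ≠ 2)] (L : Type) [Field L] [CharZero L] (D : L), D ≠ 0 →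
  (∀ I J : Ideal (BR p D), I ≠ ⊥ → J ≠ ⊥ → nm p D (I * J) = nm p D I * nm p D J) ∧ nm p D ⊤ = 1 ∧
  (∀ I : Ideal (BR p D), I ≠ ⊥ → (nm p D I = 0 ↔ I ≤ t1 p D)) ∧
  nm p D (t2 p D) = -D ∧ (t1 p D).IsMaximal ∧ (t2 p D).IsMaximal ∧ t1 p D ≠ ⊥ ∧ t2 p D ≠ ⊥ ∧ t1 p D ≠ t2 p D ∧
  t1 p D * t2 p D = Ideal.span {xx p D} ∧ t1 p D ^ p = Ideal.span {yy p D} ∧
  t1 p D = RingHom.ker (ev p D 0 0 (pt1 p D)) ∧ t2 p D = RingHom.ker (ev p D 0 (-D) (pt2 p D))

/-- JOB NMP (uses `S_DED`). Principal ideals.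
Proof.  `u ∈ B`, `u(T) ≠ 0`.  `ν = N_(B/L[y])(u) ∈ L[y]` (`B` is free over `L[y]`).  `ν(0)` = the determinant of `u` on `B / y B = L[x] / (x^p)`, `= u(T)^p ≠ 0`.  The characteristic polynomial of `y` on `B / u B` is `ν / lc(ν)` (Smith normal
form over the principal ring `L[y]`, or `B / u B` is the cokernel of a matrix with determinant `ν`; compare `Ideal.finrank_quotient_eq_sum`, `associated_norm_prod_smith`), so `nm (u) = ± ν(0) / lc(ν)`.  `lc(ν)` is a `p`-th power: give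
`a_i(y) x^i` (`0 ≤ i < p`) the weight `p deg a_i + 2 i`; these weights are different for different `i`, and if `γ y^m x^i` is the term of largest weight of `u` then `N(u)` has the leading term `γ^p y^(p m + 2 i)` (for instance: over the field
`L(ζ)` it is `∏_j σ^j u`; or embed `B` into `L((t))`, `y ↦ t^(-p)`, `x ↦ t^(-2) (1 + D t^p)^(1/p)`). -/
def S_NMP : Prop := ∀ (p : ℕ) [Fact p.Prime] [Fact (p ≠ 2)] (L : Type) [Field L] [CharZero L] (D : L), D ≠ 0 →
  ∀ u : BR p D, ev p D 0 0 (pt1 p D) u ≠ 0 → ∃ s : L, s ≠ 0 ∧ nm p D (Ideal.span {u}) = s ^ p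

/-- JOB MV (uses `S_DED`, `S_NMM`, `S_NMP`). Moving, and the class of an ideal is well defined up to `p`-th powers.
Proof.  (1) In a Dedekind domain every class contains an integral ideal prime to given ideals.  (2) `a I = b J` with `I`, `J` prime to `t1`: `a / b` is a unit of the localization at `t1`, so `a / b = a' / b'` with `a', b' ∉ t1`, and
`a' I = b' J`; `S_NMM`, `S_NMP`. -/
def S_MV : Prop := ∀ (p : ℕ) [Fact p.Prime] [Fact (p ≠ 2)] (L : Type) [Field L] [CharZero L] (D : L), D ≠ 0 →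
  (∀ I : Ideal (BR p D), I ≠ ⊥ → ∃ J : Ideal (BR p D), J ≠ ⊥ ∧ Sim p D I J ∧ ¬ J ≤ t1 p D ∧ ¬ J ≤ t2 p D) ∧
  ∀ I J : Ideal (BR p D), I ≠ ⊥ → J ≠ ⊥ → Sim p D I J → nm p D I ≠ 0 → nm p D J ≠ 0 → ∃ s : L, s ≠ 0 ∧ nm p D I = nm p D J * s ^ p

/-- JOB BC (uses `S_DED`). Extension of the field of constants.
Proof.  `B_M = M ⊗_L B_L`, `B_M / I B_M = M ⊗_L (B_L / I)`, and the norm of `y` is compatible with the extension of scalars (`Algebra.norm`, `LinearMap.det_baseChange`). -/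
def S_BC : Prop := ∀ (p : ℕ) [Fact p.Prime] [Fact (p ≠ 2)] (L M : Type) [Field L] [CharZero L] [Field M] (φ : L →+* M) (D : L) (D' : M)
  (h : φ D = D'), D ≠ 0 → Function.Injective (bc p φ D D' h) ∧ ∀ I : Ideal (BR p D), I ≠ ⊥ →
    I.map (bc p φ D D' h) ≠ ⊥ ∧ nm p D' (I.map (bc p φ D D' h)) = φ (nm p D I)

/-- JOB NI (uses `S_DED`). The norm of an ideal.
Proof.  `∏_i σ^i I` is stable under `σ`; it is generated by `N_(B/L[y]) I = (g)` (`Ideal.relNorm`, or prime by prime: `P` maximal, `q = P ∩ L[y] = (π)`: if `P` is ramified or inert then `∏ σ^i P = P^p` is `q B` or `(q B)^p`, otherwise `q B = ∏ σ^i P`;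
the characteristic polynomial of `y` on `B / P` is `π^[B/P : L[y]/q]`).  `g` = the characteristic polynomial of `y` on `B / I`, multiplicative in `I`. -/
def S_NI : Prop := ∀ (p : ℕ) [Fact p.Prime] [Fact (p ≠ 2)] (L : Type) [Field L] [CharZero L] (ζ : L) (hζ : ζ ^ p = 1),
  IsPrimitiveRoot ζ p → ∀ D : L, D ≠ 0 → ∀ I : Ideal (BR p D), I ≠ ⊥ → ∃ g : L[X], g.Monic ∧
    ∏ i ∈ Finset.range p, I.map (sgi p D ζ hζ i) = Ideal.span {AdjoinRoot.of (ff p D) g} ∧
    nm p D I = (-1) ^ g.natDegree * g.eval 0 ∧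
    Algebra.norm L (Ideal.Quotient.mk I (yy p D + cc p D D)) = (-1) ^ g.natDegree * g.eval (-D)

/-- JOB H90 (uses `S_DED`). Hilbert's Theorem 90 for ideals.
Proof.  Compare the exponents along the orbits of `σ` on the maximal ideals: an orbit has `p` elements or one (`p` is a prime).  If `P` is fixed: the exponents `m`, `n` of `P` in `I`, `J` satisfy `p m = p n`.  If `P_i = σ^i P`, `0 ≤ i < p`, are
different: `∑ m_i = ∑ n_i`, and `k_i` with `m_i + k_(i-1) = n_i + k_i`, `k_i ≥ 0` (add a constant), for almost all orbits all `k_i = 0`. -/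
def S_H90 : Prop := ∀ (p : ℕ) [Fact p.Prime] [Fact (p ≠ 2)] (L : Type) [Field L] [CharZero L] (ζ : L) (hζ : ζ ^ p = 1),
  IsPrimitiveRoot ζ p → ∀ D : L, D ≠ 0 → ∀ I J : Ideal (BR p D), I ≠ ⊥ → J ≠ ⊥ →
  ∏ i ∈ Finset.range p, I.map (sgi p D ζ hζ i) = ∏ i ∈ Finset.range p, J.map (sgi p D ζ hζ i) →
  ∃ K : Ideal (BR p D), K ≠ ⊥ ∧ I * K.map (sg p D ζ hζ) = J * K

/-- JOB AMB (uses `S_DED`, `S_NMM`, `S_MV`). Ambiguous classes.
Proof.  `E` = field of fractions of `B`, `E / L(y)` is cyclic of degree `p` with the group generated by `σ`.  Let `I` be prime to `t1` (`S_MV`), `σ I = u I`, `u ∈ E^*`; `u` is a unit at `t1` (as `σ t1 = t1`).  `∏ σ^i u` is a unit of `B`, so a constant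
`m ∈ L^*` (a unit of `L[y]`), and the value at `T` gives `u(T)^p = m` (`σ` does not change the value at `T`).  `u' = u / u(T)` has norm `1`, `u' = w / σ w` (Hilbert 90 for the cyclic extension `E / L(y)`), so `σ(I w) = I w`.  A fractional ideal fixed by `σ` is a product of
powers of `t1`, `t2` and of ideals extended from `L[y]`, which are principal: a maximal ideal `P` fixed by `σ` and different from `t1`, `t2` is inert over `L[y]` (at the places where `y (y + D)` is a unit the extension is unramified, and `σ` acts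
nontrivially on the residue field `B / P`, as `σ x = ζ x`, `x ∉ P`).  `t2 ∼ t1⁻¹ ∼ t1^(p-1)`. -/
def S_AMB : Prop := ∀ (p : ℕ) [Fact p.Prime] [Fact (p ≠ 2)] (L : Type) [Field L] [CharZero L] (ζ : L) (hζ : ζ ^ p = 1),
  IsPrimitiveRoot ζ p → ∀ D : L, D ≠ 0 → ∀ I : Ideal (BR p D), I ≠ ⊥ → Sim p D (I.map (sg p D ζ hζ)) I →
  ∃ j : ℕ, Sim p D I (t1 p D ^ j)

/-! ## The kernel of the class map -/

/-- JOB CLOS (uses `S_RS`, `S_DED`, `S_MV`, `S_BC`, `S_NI`, `S_H90`). Over a finite extension every class is in the image of `1 - σ`.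
Proof.  Let `I` be prime to `t1` and `t2` (`S_MV`: replace `I` by a similar ideal; `Sim` is compatible with `bc`), `g` as in `S_NI` (`g(0), g(-D) ≠ 0`).  `M / L`: finite Galois extension which contains the zeros `y_i` of `g` and numbers `s_i`, `t_i` with `s_i^p = y_i`,
`t_i^p = y_i + D`.  Over `R = M(y)` (`RatFunc M` or the field of fractions of `M[X]`): `Nr y (y - y_i)` (the norm of `α - s_i`, `α^p = y`), `Nr (y + D) (y - y_i)` (the norm of `α - t_i`, `α^p = y + D`), so by `S_RS` `Nr (y (y + D)) (y - y_i)` and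
`Nr (y² + D y) g`.  `R[X] / (X^p - (y² + D y))` is the field of fractions `E_M` of `B_M`: `g = N(b / a)`, `a, b ∈ B_M`, `a ≠ 0`, `N = ∏ σ^i`.  So `∏ σ^i (I B_M (a)) = ∏ σ^i (b)` (`S_NI` over `L`, extended to `M`), and `S_H90` over `M` gives `K` with
`a I_M σ K = b K`. -/
def S_CLOS : Prop := ∀ (p : ℕ) [Fact p.Prime] [Fact (p ≠ 2)] (L : Type) [Field L] [CharZero L] (ζ : L), IsPrimitiveRoot ζ p →
  ∀ D : L, D ≠ 0 → ∀ I : Ideal (BR p D), I ≠ ⊥ → ∃ (M : Type) (_ : Field M) (_ : Algebra L M), FiniteDimensional L M ∧ IsGalois L M ∧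
    ∀ h : (algebraMap L M ζ) ^ p = 1, ∃ J : Ideal (BR p (algebraMap L M D)), J ≠ ⊥ ∧
      Sim p (algebraMap L M D) (I.map (bc p (algebraMap L M) D _ rfl) * J.map (sg p (algebraMap L M D) (algebraMap L M ζ) h)) J

/-- the action of an automorphism of `M` over `L` on the coordinate ring over `M` -/
noncomputable def ga (p : ℕ) {L M : Type} [Field L] [Field M] [Algebra L M] (D : L) (τ : M ≃ₐ[L] M) :
    BR p (algebraMap L M D) →+* BR p (algebraMap L M D) :=
  bc p ((τ : M →ₐ[L] M) : M →+* M) (algebraMap L M D) (algebraMap L M D) (τ.commutes D)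

/-- JOB D4 (uses `S_DED`, `S_NMM`, `S_MV`, `S_BC`, `S_NI`, `S_AMB`). The class of `J` is fixed by the Galois group if the class of `I` is trivial.
Proof.  `I` may be replaced by a similar ideal prime to `t1`, `t2` (`S_MV`; `nm I` changes by a `p`-th power), and `J` by `J'` with `J = t1^n t2^m J'`, `J'` prime to `t1`, `t2` (`σ t_i = t_i`).  Let `u ∈ E_M^*` (`E_M` the field of fractions of `B_M`), `I σJ = u J` (ideals of `B_M`);
`u` is a unit at `t1` and `t2`, with values `u(T), u(-T) ∈ M^*`.  `∏ σ^i u = m g`, `m ∈ M^*`, `g ∈ L[y]` the norm of `I` (`S_NI`).  Values at `±T`: `u(T)^p = m g(0)`, `u(-T)^p = m g(-D)` (`σ` does not change the values at `T`, `-T`).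
`g(0) g(-D) = nm(I) N_(B/I)(y + D) = N_(B/I)(x)^p = ν^p`, `ν ∈ L^*`.  So for `ρ = u(T) / u(-T)`: `ρ^p = g(0)² / ν^p = (s² / ν)^p` (`nm I = s^p`), so `ρ = ζ^i s² / ν ∈ L`.  Let `τ ∈ Gal(M / L)`.  Applying `τ`: `I σ(τJ) = τu τJ`, so the class of `τJ / J` is fixed by `σ`;
`S_AMB`: `τJ = J t1^k w`, `w ∈ E_M^*`, `k ∈ ℕ`.  (Apply `S_AMB` to an integral ideal in the class of `τJ / J`.)  `w = x^(-k) w₁` with `w₁` a unit at `t1`, and `w` is a unit at `t2`.  `I σJ t1^k σw = J t1^k w τu`, so `u = m' (w / σw) τu`, `m' ∈ M^*` (the units of `B_M`).  Values at `T`: `u(T) = m' ζ^k τ(u(T))`,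
at `-T`: `u(-T) = m' τ(u(-T))`; `ρ = ζ^k τ(ρ) = ζ^k ρ`, `p ∣ k`, `t1^k = (y^(k/p))` (`S_NMM`), `τJ ∼ J`.  (`v_(t2)(x) = 1`: write `w` as a quotient of elements with `w = x^(-k) w₁`; at `t2`: `v_(t2)(w) = 0` since `τJ`, `J`, `t1` are prime to `t2`.) -/
def S_D4 : Prop := ∀ (p : ℕ) [Fact p.Prime] [Fact (p ≠ 2)] (L : Type) [Field L] [CharZero L] (ζ : L), IsPrimitiveRoot ζ p →
  ∀ D : L, D ≠ 0 → ∀ I : Ideal (BR p D), I ≠ ⊥ → ∀ s : L, s ≠ 0 → nm p D I = s ^ p →
  ∀ (M : Type) [Field M] [Algebra L M] [FiniteDimensional L M] [IsGalois L M] (h : (algebraMap L M ζ) ^ p = 1)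
    (J : Ideal (BR p (algebraMap L M D))), J ≠ ⊥ →
    Sim p (algebraMap L M D) (I.map (bc p (algebraMap L M) D _ rfl) * J.map (sg p (algebraMap L M D) (algebraMap L M ζ) h)) J →
    ∀ τ : M ≃ₐ[L] M, Sim p (algebraMap L M D) (J.map (ga p D τ)) J

/-- JOB D5 (uses `S_DED`, `S_NMM`, `S_MV`). Descent of classes.
Proof.  Let `J` be prime to `t1` (`S_MV`).  `τJ = w_τ J`, `w_τ ∈ E_M^*` is a unit at `t1` (`τ t1 = t1`), unique up to constants (units of `B_M`); normalize `w_τ(T) = 1`.  Then `w_(τ₁ τ₂) = w_(τ₁) τ₁(w_(τ₂))` (both sides generate the same ideal and have the value `1` at `T`).  The Galois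
group acts faithfully on `E_M`, so there is `c` with `z = ∑_τ w_τ τ(c) ≠ 0` (independence of automorphisms, `c` may be taken in `B_M`), `τ₁(z) = z / w_(τ₁)`: `τ(J z) = J z`.  So (multiply by an element of `L[y]`) `J ∼ J'`, an integral ideal fixed by the Galois group.  `J' = J₀ B_M`, `J₀ = J' ∩ B_L`: let `e_i` be a basis of
`M / L`, `b = ∑ e_i b_i ∈ J'`, `b_i ∈ B_L`; `τ b = ∑ τ(e_i) b_i` and the matrix `(τ e_i)` is invertible, so `b_i ∈ J'`. -/
def S_D5 : Prop := ∀ (p : ℕ) [Fact p.Prime] [Fact (p ≠ 2)] (L : Type) [Field L] [CharZero L] (D : L), D ≠ 0 →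
  ∀ (M : Type) [Field M] [Algebra L M] [FiniteDimensional L M] [IsGalois L M] (J : Ideal (BR p (algebraMap L M D))), J ≠ ⊥ →
    (∀ τ : M ≃ₐ[L] M, Sim p (algebraMap L M D) (J.map (ga p D τ)) J) →
    ∃ J₀ : Ideal (BR p D), J₀ ≠ ⊥ ∧ Sim p (algebraMap L M D) (J₀.map (bc p (algebraMap L M) D _ rfl)) J

/-- JOB D6 (uses `S_DED`, `S_NMM`, `S_MV`). The map of the class groups is injective.
Proof.  Let `I`, `I'` be prime to `t1`, `I B_M = u I' B_M`, `u ∈ E_M^*` a unit at `t1`, normalized by `u(T) = 1`.  `τ u / u` is a constant (a unit of `B_M`) with value `1` at `T`: `τ u = u` for all `τ`, `u ∈ E_L` (`M(y)(x)^Gal`; multiply `u` by a norm to have `u = b / g(y)`, `b ∈ B_M`, `g ∈ L[y]`,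
then `τ b = b`, `b ∈ B_L`), and `I = u I'` (faithfully flat: `I B_M ∩ B_L = I`). -/
def S_D6 : Prop := ∀ (p : ℕ) [Fact p.Prime] [Fact (p ≠ 2)] (L : Type) [Field L] [CharZero L] (D : L), D ≠ 0 →
  ∀ (M : Type) [Field M] [Algebra L M] [FiniteDimensional L M] [IsGalois L M] (I I' : Ideal (BR p D)), I ≠ ⊥ → I' ≠ ⊥ →
    Sim p (algebraMap L M D) (I.map (bc p (algebraMap L M) D _ rfl)) (I'.map (bc p (algebraMap L M) D _ rfl)) → Sim p D I I'

/-- JOB INJ (uses `S_DED`, `S_BC`, `S_CLOS`, `S_D4`, `S_D5`, `S_D6`). The kernel of the class map.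
Proof.  `S_CLOS`: `I_M σJ ∼ J`; `S_D4`, `S_D5`: `J ∼ J₀ B_M`; so `(I σJ₀)_M ∼ (J₀)_M` (`σ` and `bc` commute), `S_D6`. -/
def S_INJ : Prop := ∀ (p : ℕ) [Fact p.Prime] [Fact (p ≠ 2)] (L : Type) [Field L] [CharZero L] (ζ : L) (hζ : ζ ^ p = 1),
  IsPrimitiveRoot ζ p → ∀ D : L, D ≠ 0 → ∀ I : Ideal (BR p D), I ≠ ⊥ → ∀ s : L, s ≠ 0 → nm p D I = s ^ p →
  ∃ J : Ideal (BR p D), J ≠ ⊥ ∧ Sim p D (I * J.map (sg p D ζ hζ)) J

/-! ## Orthogonality and the local conditions -/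

/-- JOB ORTH (uses `S_RS`, `S_RP`, `S_RPT`, `S_DED`, `S_NMM`, `S_BC`). The classes are orthogonal for norms.
Proof.  (A) For every field `K ∋ ζ` of characteristic `0`, every point `(x₀, y₀)` of the curve over `K` with `y₀ ≠ 0` and every ideal `J ≠ ⊥` with `nm J ≠ 0`: `Nr y₀ (nm J)`.  `J` is a product of maximal ideals `Q`, `nm` is multiplicative (`S_NMM`), so let `J = Q`.  `K₂ = B / Q` is a
finite field extension of `K`, `nm Q = N_(K₂/K)(y₂)` by definition, `y₂ ≠ 0`, `x₂` the classes of `y`, `x`.  `Nr y₀ y₂` over `K₂` (`S_RPT`), so `Nr y₀ (nm Q)` by `S_RP`.  (B) `a s^p = nm I`, `b t^p = nm J`; by `S_RS` it suffices to show `Nr (nm I) (nm J)`, and `I = P` maximal.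
`K₁ = B / P`, `nm P = N_(K₁/K)(y₁)`; over `K₁` the point `(x₁, y₁)` and the ideal `J B_(K₁)` with `nm = nm J ∈ K` (`S_BC`): `Nr y₁ (nm J)` by (A), `Nr (nm J) y₁` (symmetry), `Nr (nm J) (nm P)` over `K` by `S_RP`, and again the symmetry. -/
def S_ORTH : Prop := ∀ (p : ℕ) [Fact p.Prime] [Fact (p ≠ 2)] (K : Type) [Field K] [CharZero K] (ζ : K), IsPrimitiveRoot ζ p →
  ∀ D a b : K, D ≠ 0 → Cj p D a → Cj p D b → Nr p a b

section F

variable {F : Type} [Field F] [NumberField F]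

/-- the local conditions: `a` is the class of a point of the Jacobian over the completion of `F` at `v` -/
def AJ (p : ℕ) (v : HeightOneSpectrum (𝓞 F)) (D a : F) : Prop :=
  Cj p (D : v.adicCompletion F) (a : v.adicCompletion F)

/-- every element of the Jacobian over `F` is the sum of a multiple of `T` and the `p`-fold of an element -/
def TrivJ (p : ℕ) (D : F) : Prop :=
  ∀ I : Ideal (BR p D), I ≠ ⊥ → ∃ (i : ℕ) (J : Ideal (BR p D)), J ≠ ⊥ ∧ Sim p D I (t1 p D ^ i * J ^ p)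

end F

open Pool.Agent.Q7.LK in
/-- JOB TAME (uses `S_DED`, `S_NMM`; `S_BAS` for `vl`). The classes are unramified where `D` is.
Proof.  `K = v.adicCompletion F`.  `a s^p = nm I`; `I` is a product of maximal ideals, so it suffices that the valuation of `nm P` is divisible by `p`.  `K₁ = B / P`, finite over `K`, `nm P = N_(K₁/K)(y)`, `x, y ∈ K₁`, `y² + D y = x^p`, `y ≠ 0`.  `w(z) = v(N_(K₁/K) z)` is, up to the factor
`[K₁ : K]`, the extension of the valuation of the complete field `K` to `K₁` (`spectralNorm` is nonarchimedean and multiplicative, and it is the `[K₁ : K]`-th root of the absolute value of the norm), so `w(y + D) ≥ min(w(y), w(D))` with equality if they are different; `p ∣ w(D)`,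
`w(y) + w(y + D) = p w(x)` (if `y = - D` then `p ∣ w(y)` is clear).  `w(y) < w(D)`: `2 w(y) = p w(x)`.  `w(y) > w(D)`: `w(y) = p w(x) - w(D)`.  `w(y) = w(D)`: clear. -/
def S_TAME : Prop := ∀ (p : ℕ) [Fact p.Prime] [Fact (p ≠ 2)] (F : Type) [Field F] [NumberField F] (v : HeightOneSpectrum (𝓞 F))
  (D a : F), D ≠ 0 → vl p v D = 0 → AJ p v D a → vl p v a = 0

open Pool.Agent.Q7.LK in
/-- JOB JLOC (uses `S_BAS`, `S_CPL`, `S_NRM`, `S_HS2`, `S_ISO`; `S_DED`, `S_NMM`, `S_ORTH`). `AJ` has the properties of `Loc`.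
Proof.  `K = v.adicCompletion F`; `Lpw p v b` iff `b ≠ 0` is a `p`-th power in `K` (`S_CPL`).  `mul`: clear.  `inv`: `n = ν^p`: the isomorphism of rings `B(D n) → B(D)`, `y ↦ ν^p y`, `x ↦ ν² x`, and `nm` changes by a power of `ν^p`.  `clo`: multiply the ideal by `t2`, `nm t2 = - D`, `-1 = (-1)^p`.
`pow`: `I^n`.  `num`: `S_ORTH` gives `Nr a b` over `K` for all `a, b ∈ B`; if `a` is a local `p`-th power `t v b a = 0` (`Hilb.anti`, `Hilb.pow`), otherwise `t v b a = 0` by `S_NRM` (the norm from `K[X] / (X^p - a)`); `S_ISO` with `(2 + dv) / 2 = dv / 2 + 1`.  `zero`: `dv p v = 0` for `v ∤ p`.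
(See `ael` in `Pool/Agent/Q7/CE/Main.lean`.) -/
def S_JLOC : Prop := ∀ (p : ℕ) [Fact p.Prime] [Fact (p ≠ 2)] (F : Type) [Field F] [NumberField F] (ζ : F), IsPrimitiveRoot ζ p →
  Loc p (AJ (F := F) p) (fun v => dv p v / 2)

open Pool.Agent.Q7.LK in
/-- JOB JCOND (uses `S_BAS`, `S_CPL`, `S_NRM`, `S_HS2`; `S_NMM`, `S_ORTH`, `S_TAME`). Locally realized classes satisfy the conditions of the engine.
Proof.  `unr`: `S_TAME`.  `ram`: `v ∤ p`, `vl v D ≠ 0`.  `D` itself is a class (`nm t2 = - D`), so `Nr a D`, `Nr D a` over `K = v.adicCompletion F` by `S_ORTH`.  `D` is not a `p`-th power in `K` (`vl v D ≠ 0`), so `t v a D = 0` for the Hilbert symbol `t` of `S_HS2` by `S_NRM`.  There is `j : ℕ` with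
`vl v (a D^j) = 0`; `t v (D^j) D = 0` (`t v D D = - t v D D`), so `0 = t v (a D^j) D = - t v D (a D^j) = - vl v D * sy v (a D^j)` (`Hilb.unr`), so `sy v (a D^j) = 0` and `Lpw v (a D^j)` by `S_BAS`. -/
def S_JCOND : Prop := ∀ (p : ℕ) [Fact p.Prime] [Fact (p ≠ 2)] (F : Type) [Field F] [NumberField F] (ζ : F), IsPrimitiveRoot ζ p →
  ∀ D a : F, D ≠ 0 → (∀ v : HeightOneSpectrum (𝓞 F), AJ p v D a) → Cond p (AJ (F := F) p) D a

open Pool.Agent.Q7.LK in
/-- JOB JTRI (uses `S_DED`, `S_NMM`, `S_MV`, `S_BC`, `S_INJ`, `S_JCOND`). Triviality.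
Proof.  (1) Every class contains an ideal `I` with `nm I ≠ 0` (`S_MV`).  `a = nm I` satisfies `AJ p v D a` for all `v` (`S_BC` for `F → F_v`), so `Cond` (`S_JCOND`), and by hypothesis `a D^j = c^p`.  `nm (I t2^j) = a (- D)^j` is a `p`-th power, so by `S_INJ` `I t2^j σJ ∼ J`.  `t2 ∼ t1⁻¹`
(`t1 t2 = (x)`).  So `I ∼ t1^j J (σJ)⁻¹`: in the class group `A` (write it additively, `σ` acts, `T` the class of `t1`, `p T = 0`, `σ T = T`) `A = ⟨T⟩ + (1 - σ) A`, so `A = ⟨T⟩ + (1 - σ)^(p-1) A`.  (2) `N = ∑_(i<p) σ^i` is zero on `A` (`∏ σ^i I` is principal: `S_NI` may be used as a hypothesis too), and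
`(1 - X)^(p-1) = N(X) + p u(X)` in `ℤ[X]` (`(X^p - 1)/(X - 1) ≡ (X - 1)^(p-1)` modulo `p`).  So `A = ⟨T⟩ + p A`. -/
def S_JTRI : Prop := ∀ (p : ℕ) [Fact p.Prime] [Fact (p ≠ 2)] (F : Type) [Field F] [NumberField F] (ζ : F), IsPrimitiveRoot ζ p →
  ∀ D : F, D ≠ 0 → ¬ Bad p (AJ (F := F) p) D → TrivJ p D

end Pool.Agent.Q7.CJ
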