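import Pool.Agent.Q7.CJ.Def

/-!
# Project CJ (helper7): the points of the Jacobian over extensions, and its Tate-Shafarevich group
-/

set_option autoImplicit false

namespace Pool.Agent.Q7.CJ

open Polynomial IsDedekindDomain

theorem bc_injective (p : ℕ) [Fact p.Prime] {L M : Type} [Field L] [Field M] (φ : L →+* M) (D : L) (D' : M)
    (h : φ D = D') : Function.Injective (bc p φ D D' h) := by
  rw [injective_iff_map_eq_zero]
  intro b hb
  obtain ⟨g, rfl⟩ := AdjoinRoot.mk_surjective b
  have h1 : (ff p D).map (mapRingHom φ) = ff p D' := by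
    unfold ff
    rw [Polynomial.map_sub, Polynomial.map_pow, map_X, map_C]
    simp only [coe_mapRingHom, Polynomial.map_add, Polynomial.map_mul, Polynomial.map_pow, map_X, map_C, h]
  have h2 : bc p φ D D' h (AdjoinRoot.mk (ff p D) g) = AdjoinRoot.mk (ff p D') (g.map (mapRingHom φ)) := by
    have h3 : (bc p φ D D' h).comp (AdjoinRoot.mk (ff p D)) =
        (AdjoinRoot.mk (ff p D')).comp (mapRingHom (mapRingHom φ)) := by
      refine Polynomial.ringHom_ext (fun a => ?_) ?_
      · simp only [RingHom.comp_apply, AdjoinRoot.mk_C, coe_mapRingHom, map_C]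
        exact bc_of p φ D D' h a
      · simp only [RingHom.comp_apply, AdjoinRoot.mk_X, coe_mapRingHom, map_X]
        exact bc_xx p φ D D' h
    exact RingHom.congr_fun h3 g
  rw [h2, AdjoinRoot.mk_eq_zero, ← h1] at hb
  have h3 := (Polynomial.modByMonic_eq_zero_iff_dvd ((ff_monic p D).map (mapRingHom φ))).2 hb
  rw [← Polynomial.map_modByMonic _ (ff_monic p D)] at h3
  have h4 : g %ₘ ff p D = 0 := by
    refine (Polynomial.map_injective (mapRingHom φ) (Polynomial.map_injective φ φ.injective)) ?_
    rw [h3, Polynomial.map_zero]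
  rw [AdjoinRoot.mk_eq_zero]
  exact (Polynomial.modByMonic_eq_zero_iff_dvd (ff_monic p D)).1 h4

noncomputable section

/-- the map of the class groups given by an injective homomorphism of rings (extension of ideals) -/
def cmap {R S : Type} [CommRing R] [IsDomain R] [CommRing S] [IsDomain S] (f : R →+* S) (hf : Function.Injective f) :
    ClassGroup R →* ClassGroup S :=
  letI : Algebra R S := f.toAlgebra
  haveI : FaithfulSMul R S := (faithfulSMul_iff_algebraMap_injective _ _).2 hf
  ClassGroup.extendedHom R S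

open scoped nonZeroDivisors in
/-- `P` is the class of the ideal `I` -/
def IsClass {R : Type} [CommRing R] [IsDomain R] (P : ClassGroup R) (I : Ideal R) : Prop :=
  ∃ u : (FractionalIdeal R⁰ (FractionRing R))ˣ, (u : FractionalIdeal R⁰ (FractionRing R)) = I ∧ ClassGroup.mk (FractionRing R) u = P

/-- the points of the Jacobian over the extension `L` of `F` -/
def Jp (p : ℕ) {F : Type} [Field F] (D : F) [Fact p.Prime] [Fact (p ≠ 2)] (L : Type) [Field L] [Algebra F L] : Type :=
  ClassGroup (BR p (algebraMap F L D))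

variable (p : ℕ) [Fact p.Prime] [Fact (p ≠ 2)] {F : Type} [Field F] (D : F)

/-- the group law -/
instance Jp.group (L : Type) [Field L] [Algebra F L] : AddCommGroup (Jp p D L) :=
  Additive.addCommGroup (α := ClassGroup (BR p (algebraMap F L D)))

/-- `P` is the class of the ideal `I` -/
def IsCls {L : Type} [Field L] [Algebra F L] (P : Jp p D L) (I : Ideal (BR p (algebraMap F L D))) : Prop :=
  IsClass (R := BR p (algebraMap F L D)) P I

open Classical in
/-- the point `T`, the class of the ideal of the point `(0, 0)` -/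
def tT (L : Type) [Field L] [Algebra F L] : Jp p D L :=
  if h : ∃ P : Jp p D L, IsCls p D P (t1 p (algebraMap F L D)) then h.choose else 0

/-- `x ↦ ζ x` -/
def sgL (ζ : F) (h : ζ ^ p = 1) (L : Type) [Field L] [Algebra F L] :
    BR p (algebraMap F L D) →ₐ[L[X]] BR p (algebraMap F L D) :=
  sg p (algebraMap F L D) (algebraMap F L ζ) (by rw [← map_pow, h, map_one])

omit [Fact (p ≠ 2)] in
theorem sg_injective {L : Type} [Field L] (D ζ : L) (h : ζ ^ p = 1) : Function.Injective (sg p D ζ h) := by
  have hp := (Fact.out (p := p.Prime)).pos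
  have hz : (ζ ^ (p - 1)) ^ p = 1 := by rw [← pow_mul, mul_comm, pow_mul, h, one_pow]
  have h1 : ∀ b, sg p D (ζ ^ (p - 1)) hz (sg p D ζ h b) = b := by
    intro b
    have h2 : ((sg p D (ζ ^ (p - 1)) hz).comp (sg p D ζ h)) = AlgHom.id L[X] (BR p D) := by
      refine AdjoinRoot.algHom_ext ?_
      change sg p D (ζ ^ (p - 1)) hz (sg p D ζ h (xx p D)) = xx p D
      rw [sg_xx, map_mul, sg_xx]
      change sg p D (ζ ^ (p - 1)) hz (AdjoinRoot.of (ff p D) (C ζ)) * _ = _
      rw [sg_of, ← mul_assoc]
      unfold cc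
      rw [← map_mul, ← C_mul, ← pow_succ', Nat.sub_add_cancel hp, h, map_one, map_one, one_mul]
    exact AlgHom.congr_fun h2 b
  exact Function.LeftInverse.injective h1

/-- the automorphism `[ζ]` of the Jacobian -/
def om (ζ : F) (h : ζ ^ p = 1) (L : Type) [Field L] [Algebra F L] : Jp p D L →+ Jp p D L :=
  MonoidHom.toAdditive (cmap ((sgL p D ζ h L : BR p (algebraMap F L D) →ₐ[L[X]] BR p (algebraMap F L D)) :
    BR p (algebraMap F L D) →+* BR p (algebraMap F L D))
    (sg_injective p (algebraMap F L D) (algebraMap F L ζ) (by rw [← map_pow, h, map_one])))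

/-- the map on points given by a homomorphism of fields -/
def act {L M : Type} [Field L] [Algebra F L] [Field M] [Algebra F M] (φ : L →ₐ[F] M) : Jp p D L →+ Jp p D M :=
  MonoidHom.toAdditive (cmap (bc p (φ : L →+* M) (algebraMap F L D) (algebraMap F M D) (φ.commutes D))
    (bc_injective p _ _ _ _))

/-- the absolute Galois group, with the Krull topology -/
abbrev GalF (F : Type) [Field F] : Type := AlgebraicClosure F ≃ₐ[F] AlgebraicClosure F

/-- functions on the absolute Galois group with values in the points over the algebraic closure -/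
def Coch : Type := GalF F → Jp p D (AlgebraicClosure F)

instance Coch.group : AddCommGroup (Coch p D) :=
  @Pi.addCommGroup (GalF F) (fun _ => Jp p D (AlgebraicClosure F)) (fun _ => Jp.group p D _)

/-- `f` is a continuous cocycle: `f (σ τ) = f σ + σ (f τ)` -/
def IsCoc (f : Coch p D) : Prop :=
  IsLocallyConstant f ∧ ∀ σ τ : GalF F, f (σ * τ) = f σ + act p D (σ : AlgebraicClosure F →ₐ[F] AlgebraicClosure F) (f τ)

/-- `f` is a coboundary: `f σ = σ P - P` -/
def IsCob (f : Coch p D) : Prop :=
  ∃ P : Jp p D (AlgebraicClosure F), ∀ σ : GalF F, f σ = act p D (σ : AlgebraicClosure F →ₐ[F] AlgebraicClosure F) P - P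

/-- for every embedding of the algebraic closures the restriction of `f` to the absolute Galois group of `K ⊇ F` is a coboundary -/
def LocTriv (K : Type) [Field K] [Algebra F K] (f : Coch p D) : Prop :=
  ∀ ι : AlgebraicClosure F →ₐ[F] AlgebraicClosure K, ∃ P : Jp p D (AlgebraicClosure K),
    ∀ (τ : GalF K) (σ : GalF F), (∀ x, τ (ι x) = ι (σ x)) →
      act p D ι (f σ) = act p D ((τ : AlgebraicClosure K →ₐ[K] AlgebraicClosure K).restrictScalars F) P - P

/-- the group of the coboundaries -/
def cob : AddSubgroup (Coch p D) where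
  carrier := {f | IsCob p D f}
  zero_mem' := ⟨0, fun σ => by
    change (0 : Jp p D (AlgebraicClosure F)) = _
    rw [map_zero, sub_zero]⟩
  add_mem' := by
    rintro f g ⟨P, hP⟩ ⟨Q, hQ⟩
    refine ⟨P + Q, fun σ => ?_⟩
    change f σ + g σ = _
    rw [hP, hQ, map_add]
    abel
  neg_mem' := by
    rintro f ⟨P, hP⟩
    refine ⟨-P, fun σ => ?_⟩
    change -f σ = _
    rw [hP, map_neg]
    abel

section NF

variable [NumberField F]

/-- a continuous cocycle that is locally trivial at all the places of `F` -/
def IsShaCoc (f : Coch p D) : Prop :=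
  IsCoc p D f ∧
  (∀ v : HeightOneSpectrum (NumberField.RingOfIntegers F), LocTriv p D (v.adicCompletion F) f) ∧
  ∀ v : NumberField.InfinitePlace F, LocTriv p D v.Completion f

omit [NumberField F] in
theorem loc_zero (K : Type) [Field K] [Algebra F K] : LocTriv p D K 0 :=
  fun ι => ⟨0, fun τ σ _ => by
    change act p D ι 0 = _
    rw [map_zero, map_zero, sub_zero]⟩

omit [NumberField F] in
theorem loc_add {K : Type} [Field K] [Algebra F K] {f g : Coch p D} (hf : LocTriv p D K f) (hg : LocTriv p D K g) :
    LocTriv p D K (f + g) := by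
  intro ι
  obtain ⟨P, hP⟩ := hf ι
  obtain ⟨Q, hQ⟩ := hg ι
  refine ⟨P + Q, fun τ σ h => ?_⟩
  change act p D ι (f σ + g σ) = _
  rw [map_add, map_add, hP τ σ h, hQ τ σ h]
  abel

omit [NumberField F] in
theorem loc_neg {K : Type} [Field K] [Algebra F K] {f : Coch p D} (hf : LocTriv p D K f) : LocTriv p D K (-f) := by
  intro ι
  obtain ⟨P, hP⟩ := hf ι
  refine ⟨-P, fun τ σ h => ?_⟩
  change act p D ι (-f σ) = _
  rw [map_neg, map_neg, hP τ σ h]
  abel

/-- the group of the continuous cocycles that are locally trivial at all the places of `F` -/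
def shaCoc : AddSubgroup (Coch p D) where
  carrier := {f | IsShaCoc p D f}
  zero_mem' := ⟨⟨IsLocallyConstant.const _, fun σ τ => by
    change (0 : Jp p D (AlgebraicClosure F)) = 0 + act p D _ 0
    rw [map_zero, add_zero]⟩, fun _ => loc_zero p D _, fun _ => loc_zero p D _⟩
  add_mem' := fun {f g} hf hg => ⟨⟨hf.1.1.add hg.1.1, fun σ τ => by
    change f (σ * τ) + g (σ * τ) = f σ + g σ + act p D _ (f τ + g τ)
    rw [hf.1.2, hg.1.2, map_add]
    abel⟩, fun v => loc_add p D (hf.2.1 v) (hg.2.1 v), fun v => loc_add p D (hf.2.2 v) (hg.2.2 v)⟩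
  neg_mem' := fun {f} hf => ⟨⟨hf.1.1.neg, fun σ τ => by
    change -f (σ * τ) = -f σ + act p D _ (-f τ)
    rw [hf.1.2, map_neg]
    abel⟩, fun v => loc_neg p D (hf.2.1 v), fun v => loc_neg p D (hf.2.2 v)⟩

/-- the Tate-Shafarevich group of the Jacobian over `F` -/
def Sha : Type := shaCoc p D ⧸ (cob p D).addSubgroupOf (shaCoc p D)

/-- the group law on the Tate-Shafarevich group -/
instance Sha.group : AddCommGroup (Sha p D) :=
  @QuotientAddGroup.Quotient.addCommGroup (shaCoc p D) _ ((cob p D).addSubgroupOf (shaCoc p D))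

end NF

end

end Pool.Agent.Q7.CJ
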