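import Pool.Agent.Q7.CJ.Stm
import Pool.Agent.Q7.CJ.Def2

/-!
# Project CJ (helper7), part 2: the `p`-primary part of the Tate-Shafarevich group

GOAL (`S_SHA`).  `D` not bad: `Ш(J_D / F)` has no element of order `p`.  Together with part 1: for a share of at least `1 - 1/(p-1) - ε` of the `D` of every family the
`p`-primary part of `Ш(J_D / F)` is zero and `J_D(F) = ⟨T⟩ + p J_D(F)`.

Proof.  `λ = 1 - [ζ]` is surjective on `J_D(F̄)` with the kernel `⟨T⟩` of order `p`, and `λ^(p-1) = p u` (`S_STR`).  If `p f` is a coboundary then so is `λ^(p-1) f`; so it suffices: `f` a cocycle in `Ш`,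
`λ f` a coboundary, then `f` is a coboundary.  Changing `f` by a coboundary, `f(τ) = h(τ) T`; `h(τ) = τ(α)/α`, `α^p = a ∈ F` (`S_KUM`).  Locally trivial at `v`: `a` is the class of a point over `F_v` (`S_LST`),
so `a D^j` is a `p`-th power (`D` not bad), so `f` is a coboundary (`S_GST`).
-/

set_option autoImplicit false

namespace Pool.Agent.Q7.CJ

open Polynomial NumberField IsDedekindDomain

/-- JOB D4H (uses `S_DED`, `S_NMM`, `S_MV`, `S_BC`, `S_NI`, `S_AMB`): the general form of `S_D4` for an arbitrary extension `M / L` of fields (NOT necessarily finite or Galois).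
Proof.  See `S_D4`.  `ρ = u(T) / u(-T) ∈ M^*`, `ρ^p = g(0)² / ν^p = nm(I)² ν'^p` with `ν' ∈ L^*` (if `I` is replaced by a similar ideal prime to `t1`, `t2` then `nm I` changes by a `p`-th power of `L`), and `ρ = ζ^k τ(ρ)` if `τJ ∼ J t1^k`. -/
def S_D4H : Prop := ∀ (p : ℕ) [Fact p.Prime] [Fact (p ≠ 2)] (L : Type) [Field L] [CharZero L] (ζ : L), IsPrimitiveRoot ζ p →
  ∀ D : L, D ≠ 0 → ∀ I : Ideal (BR p D), I ≠ ⊥ → nm p D I ≠ 0 →
  ∀ (M : Type) [Field M] (i : L →+* M) (D' : M) (hD : i D = D') (h : (i ζ) ^ p = 1) (J : Ideal (BR p D')), J ≠ ⊥ →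
    Sim p D' (I.map (bc p i D D' hD) * J.map (sg p D' (i ζ) h)) J →
    ∃ ρ : M, ρ ≠ 0 ∧ (∃ ν : L, ν ≠ 0 ∧ ρ ^ p = i (nm p D I ^ 2 * ν ^ p)) ∧
      ∀ (τ : M →+* M), Function.Bijective τ → (∀ x, τ (i x) = i x) → ∀ hτ : τ D' = D',
        (∃ k : ℕ, Sim p D' (J.map (bc p τ D' D' hτ)) (J * t1 p D' ^ k)) ∧
        ∀ k : ℕ, Sim p D' (J.map (bc p τ D' D' hτ)) (J * t1 p D' ^ k) → ρ = i ζ ^ k * τ ρ

/-- JOB LIM (uses `S_DED`, `S_BC`, `S_D6`). Descent from the algebraic closure.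
Proof.  `M` an algebraic closure of `L`, all `τJ ∼ J`.  `J` is finitely generated, so `J = J₁ B_M`, `J₁` an ideal of `B_(M₀)`, `M₀ / L` finite Galois (`IntermediateField`, `normalClosure`).  Let `τ₀ ∈ Gal(M₀ / L)`, extended to `τ ∈ Gal(M / L)`.  `a τJ = b J`, `a, b ∈ B_M`; `a, b` have coefficients
in a finite extension `M₁ ⊇ M₀`, Galois over `L`, and the equality of ideals `a τ₀J₁ B_(M₁) = b J₁ B_(M₁)` holds over `M₁` (generators: membership in an ideal is a linear condition; or `I B_M ∩ B_(M₁) = I`, faithfully flat: `B_M` is free over `B_(M₁)`).  `S_D6` for `M₁ / M₀`: `τ₀J₁ ∼ J₁` over `M₀`.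
`S_D5` for `M₀ / L`. -/
def S_LIM : Prop := ∀ (p : ℕ) [Fact p.Prime] [Fact (p ≠ 2)] (L : Type) [Field L] [CharZero L] (D : L), D ≠ 0 →
  ∀ (M : Type) [Field M] [Algebra L M] [IsAlgClosure L M] (D' : M) (hD : algebraMap L M D = D') (J : Ideal (BR p D')), J ≠ ⊥ →
    (∀ (τ : M ≃ₐ[L] M) (h : τ D' = D'), Sim p D' (J.map (bc p ((τ : M →ₐ[L] M) : M →+* M) D' D' h)) J) →
    ∃ J₀ : Ideal (BR p D), J₀ ≠ ⊥ ∧ Sim p D' (J₀.map (bc p (algebraMap L M) D D' hD)) J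

/-- JOB DIC (uses `S_DED`, `S_BC`). The dictionary between the points `Jp` (class group) and ideals.
Proof.  `ClassGroup.mk`, `ClassGroup.mk_eq_mk` etc.; `cmap` is the extension of ideals: see `ClassGroup.extendedHom` (`FractionalIdeal.extendedHom`); `S_DED` gives that nonzero ideals are invertible fractional ideals. -/
def S_DIC : Prop := ∀ (p : ℕ) [Fact p.Prime] [Fact (p ≠ 2)] (F : Type) [Field F] [CharZero F] (D : F), D ≠ 0 →
  ∀ (L : Type) [Field L] [Algebra F L],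
  (∀ P : Jp p D L, ∃ I : Ideal (BR p (algebraMap F L D)), IsCls p D P I) ∧
  (∀ I : Ideal (BR p (algebraMap F L D)), I ≠ ⊥ → ∃ P : Jp p D L, IsCls p D P I) ∧
  (∀ (P : Jp p D L) (I : Ideal (BR p (algebraMap F L D))), IsCls p D P I → I ≠ ⊥) ∧
  (∀ (P Q : Jp p D L) (I J : Ideal (BR p (algebraMap F L D))), IsCls p D P I → IsCls p D Q J →
    (P = Q ↔ Sim p (algebraMap F L D) I J) ∧ IsCls p D (P + Q) (I * J)) ∧
  IsCls p D (0 : Jp p D L) ⊤ ∧ IsCls p D (tT p D L) (t1 p (algebraMap F L D)) ∧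
  (∀ (ζ : F) (h : ζ ^ p = 1) (h' : (algebraMap F L ζ) ^ p = 1) (P : Jp p D L) (I : Ideal (BR p (algebraMap F L D))),
    IsCls p D P I → IsCls p D (om p D ζ h L P) (I.map (sg p (algebraMap F L D) (algebraMap F L ζ) h'))) ∧
  ∀ (M : Type) [Field M] [Algebra F M] (φ : L →ₐ[F] M) (P : Jp p D L) (I : Ideal (BR p (algebraMap F L D))),
    IsCls p D P I → IsCls p D (act p D φ P) (I.map (bc p (φ : L →+* M) (algebraMap F L D) (algebraMap F M D) (φ.commutes D)))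

/-- JOB FUN (uses `S_DIC`). Functoriality.
Proof.  From the dictionary and the homomorphisms of rings (`sg`, `bc` are determined by the images of the constants, `y` and `x`). -/
def S_FUN : Prop := ∀ (p : ℕ) [Fact p.Prime] [Fact (p ≠ 2)] (F : Type) [Field F] [CharZero F] (D : F), D ≠ 0 →
  ∀ (L M N : Type) [Field L] [Algebra F L] [Field M] [Algebra F M] [Field N] [Algebra F N] (φ : L →ₐ[F] M) (ψ : M →ₐ[F] N),
  (∀ P : Jp p D L, act p D (AlgHom.id F L) P = P) ∧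
  (∀ P : Jp p D L, act p D (ψ.comp φ) P = act p D ψ (act p D φ P)) ∧
  (act p D φ (tT p D L) = tT p D M) ∧
  ∀ (ζ : F) (h : ζ ^ p = 1), om p D ζ h L (tT p D L) = tT p D L ∧
    ∀ P : Jp p D L, act p D φ (om p D ζ h L P) = om p D ζ h M (act p D φ P)

/-- JOB STR (uses `S_DED`, `S_NMM`, `S_NI`, `S_AMB`, `S_CLOS`, `S_D4H`, `S_DIC`, `S_FUN`). The structure of the points as a `ℤ[ζ]`-module.
Proof.  (1) `∏ σ^i I` is principal (`S_NI`).  (2) `t1^p = (y)` (`S_NMM`).  (3) `S_AMB`.  (4) `L` algebraically closed: `S_CLOS` gives a finite extension `M` of `L`, so `L → M` is bijective; transport the ideal `J` back.  (5) If `T` had order `< p`, so `T = 0`: `S_D4H` with `L = M`, `i = id`, `I = J = ⊤`, `τ = id`, `k = 1`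
(`Sim J (J t1)`): `ρ = ζ ρ`, a contradiction.  (6) `(1 - X)^(p-1) ≡ 1 + X + .. + X^(p-1)` modulo `p` in `ℤ[X]`, so `(1 - X)^(p-1) = N(X) + p u(X)`. -/
def S_STR : Prop := ∀ (p : ℕ) [Fact p.Prime] [Fact (p ≠ 2)] (F : Type) [Field F] [CharZero F] (ζ : F) (hζ : ζ ^ p = 1), IsPrimitiveRoot ζ p →
  ∀ D : F, D ≠ 0 → ∀ (L : Type) [Field L] [Algebra F L],
  (∀ P : Jp p D L, ∑ i ∈ Finset.range p, (om p D ζ hζ L)^[i] P = 0) ∧
  p • tT p D L = 0 ∧
  (∀ P : Jp p D L, om p D ζ hζ L P = P → ∃ j : ℕ, P = j • tT p D L) ∧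
  (IsAlgClosed L → ∀ P : Jp p D L, ∃ Q : Jp p D L, Q - om p D ζ hζ L Q = P) ∧
  (∀ j : ℕ, j • tT p D L = 0 → p ∣ j) ∧
  ∃ n : ℕ → ℤ, ∀ P : Jp p D L,
    (fun Q : Jp p D L => Q - om p D ζ hζ L Q)^[p - 1] P = p • ∑ i ∈ Finset.range p, n i • (om p D ζ hζ L)^[i] P

/-- JOB KUM (only Mathlib). Kummer theory.
Proof.  `N` = kernel of `h` modulo `p`, open and normal, `K = F̄^N`, `K / F` Galois, cyclic of degree `1` or `p`.  Degree `1`: `α = 1`, `p ∣ h`.  Degree `p`: `K = F(β)`, `β^p ∈ F` (`exists_root_adjoin_eq_top_of_isCyclic`, `Mathlib/FieldTheory/KummerExtension.lean`), `τ(β) = ζ^(c(τ)) β` with `c` a homomorphism to `ZMod p` with the same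
kernel as `h`, so `h = m c` and `α = β^m`.  (Or Hilbert 90: `∑ ζ^(-h(τ)) τ(β)` over `Gal(K / F)`.) -/
def S_KUM : Prop := ∀ (p : ℕ) [Fact p.Prime] (F : Type) [Field F] [CharZero F] (ζ : F), IsPrimitiveRoot ζ p →
  ∀ h : GalF F → ℕ, IsLocallyConstant h → (∀ σ τ : GalF F, h (σ * τ) ≡ h σ + h τ [MOD p]) →
    ∃ (α : AlgebraicClosure F) (a : F), a ≠ 0 ∧ α ^ p = algebraMap F (AlgebraicClosure F) a ∧
      ∀ τ : GalF F, τ α = algebraMap F (AlgebraicClosure F) ζ ^ h τ * α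

/-- JOB LST (uses `S_DED`, `S_NMM`, `S_MV`, `S_BC`, `S_D4H`, `S_LIM`, `S_DIC`, `S_FUN`, `S_STR`). The local step.
Proof.  `K̄ = AlgebraicClosure K`.  Every `τ ∈ Gal(K̄ / K)` has a `σ` with `τ ι = ι σ` (`ι(F̄)` is the algebraic closure of `F` in `K̄`, normal over `F`: `AlgHom.restrictNormal`, `AlgEquiv.restrictNormal`).  `P = R - [ζ] R` is fixed by all `τ` (`[ζ]` commutes with `τ`, `[ζ] T = T`), so by `S_LIM` it is the class of
an ideal extended from an ideal `I` over `K` (`D_K = algebraMap F K D`; `algebraMap F K̄ D = algebraMap K K̄ D_K`), `nm I ≠ 0` after `S_MV`.  `S_D4H` for `K → K̄`, `J` an ideal of the class `R`: `ρ^p = nm(I)² ν^p`, `ρ = ζ^k τ(ρ)` with `k = h(σ)`.  So `β = ι(α) ρ` is fixed by all `τ`: `β ∈ K`,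
`β^p = a nm(I)² ν^p`, so `a nm(I)^2` is a `p`-th power in `K`, and `nm(I^(p-2)) = nm(I)^p / nm(I)^2` is `a` times a `p`-th power. -/
def S_LST : Prop := ∀ (p : ℕ) [Fact p.Prime] [Fact (p ≠ 2)] (F : Type) [Field F] [CharZero F] (ζ : F), IsPrimitiveRoot ζ p →
  ∀ D : F, D ≠ 0 → ∀ (α : AlgebraicClosure F) (a : F) (h : GalF F → ℕ), a ≠ 0 → α ^ p = algebraMap F (AlgebraicClosure F) a →
  (∀ τ : GalF F, τ α = algebraMap F (AlgebraicClosure F) ζ ^ h τ * α) →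
  ∀ (K : Type) [Field K] [Algebra F K] (ι : AlgebraicClosure F →ₐ[F] AlgebraicClosure K) (R : Jp p D (AlgebraicClosure K)),
    (∀ (τ : GalF K) (σ : GalF F), (∀ x, τ (ι x) = ι (σ x)) →
      h σ • tT p D (AlgebraicClosure K) =
        act p D ((τ : AlgebraicClosure K →ₐ[K] AlgebraicClosure K).restrictScalars F) R - R) →
    Cj p (algebraMap F K D) (algebraMap F K a)

/-- JOB GST (uses `S_DED`, `S_NMM`, `S_BC`, `S_D4H`, `S_DIC`, `S_FUN`, `S_STR`). The global step.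
Proof.  `a D^j = c^p`.  Let `m : ℕ` with `2 m ≡ j` modulo `p`, `I = t2^m`, `nm I = (- D)^m` (`S_NMM`).  `R ∈ J(F̄)` with `R - [ζ] R =` class of `I` (`S_STR`), `J` an ideal of the class `R`.  `S_D4H` for `F → F̄`: `ρ^p = nm(I)² ν^p = D^(2m) ν^p`, so `(ρ α)^p = a D^(2m) ν^p` is a `p`-th power of an element of `F`,
so `ρ α ∈ F^*` (`ζ ∈ F`).  `τR = R + k T` for some `k`, `ρ = ζ^k τ(ρ)`; `τ(ρ α) = ρ α`, so `ζ^(h(τ)) = ζ^k`, `h(τ) ≡ k` modulo `p`. -/
def S_GST : Prop := ∀ (p : ℕ) [Fact p.Prime] [Fact (p ≠ 2)] (F : Type) [Field F] [CharZero F] (ζ : F), IsPrimitiveRoot ζ p →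
  ∀ D : F, D ≠ 0 → ∀ (α : AlgebraicClosure F) (a : F) (h : GalF F → ℕ), a ≠ 0 → α ^ p = algebraMap F (AlgebraicClosure F) a →
  (∀ τ : GalF F, τ α = algebraMap F (AlgebraicClosure F) ζ ^ h τ * α) →
  ∀ j : ℕ, (∃ c : F, a * D ^ j = c ^ p) →
    ∃ R : Jp p D (AlgebraicClosure F), ∀ σ : GalF F,
      h σ • tT p D (AlgebraicClosure F) = act p D (σ : AlgebraicClosure F →ₐ[F] AlgebraicClosure F) R - R

/-- JOB SHA (uses `S_FUN`, `S_STR`, `S_KUM`, `S_LST`, `S_GST`, `S_JCOND`). The Tate-Shafarevich group has no element of order `p`.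
Proof.  See the beginning of the file.  `x` is the class of `f`, `p f = ∂ P`.  With `λ Q = Q - [ζ] Q` the cochain `λ^(p-1) f = p ∑ n_i [ζ]^i f` is a coboundary (`S_STR`, `S_FUN`).  Claim: if `f` is a cocycle in `shaCoc` and `λ f` is a coboundary `∂ P` then `f` is a coboundary (then `f` itself by descending induction: `λ^m f ∈ shaCoc`).
`P = λ Q` (`S_STR`), `g = f - ∂ Q` satisfies `λ g = 0`, so `g(τ) = h(τ) T` with `h(τ) < p` (`S_STR`: `P = j T`, take `j` modulo `p`), `h` is locally constant and a homomorphism modulo `p` (`T` has order `p`, `act T = T`).  `S_KUM`: `α`, `a`.  For every finite place `v` (there is an `ι`: `IsAlgClosed.lift`) `g` is locally trivial (`∂ Q` is locally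
trivial, with the point `act ι Q`), so `S_LST`: `AJ p v D a`.  `S_JCOND`: `Cond`, and as `D` is not bad `a D^j = c^p`.  `S_GST`. -/
def S_SHA : Prop := ∀ (p : ℕ) [Fact p.Prime] [Fact (p ≠ 2)] (F : Type) [Field F] [NumberField F] (ζ : F), IsPrimitiveRoot ζ p →
  ∀ D : F, D ≠ 0 → ¬ Pool.Agent.Q7.LK.Bad p (AJ (F := F) p) D → ∀ x : Sha p D, p • x = 0 → x = 0

end Pool.Agent.Q7.CJ
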