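import Mathlib

/-!
# Project CJ (helper7): the Jacobians of `y² + D y = x^p`: definitions

`p` is an odd prime, `L` a field, `D ∈ L`.  The curve `C_D : y² + D y = x^p` has one point at infinity, and the group `J_D(L)` of the
`L`-points of its Jacobian (divisor classes of degree zero) is the class group of the ring `L[x, y] / (x^p - y² - D y)`.
-/

set_option autoImplicit false

namespace Pool.Agent.Q7.CJ

open Polynomial

section

variable (p : ℕ) {L : Type} [Field L]

/-- `x^p - (y² + D y)` as a polynomial in `x` over `L[y]` -/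
noncomputable def ff (D : L) : L[X][X] := X ^ p - C (X ^ 2 + C D * X)

/-- the coordinate ring `L[x, y] / (x^p - y² - D y)` of the affine curve -/
abbrev BR (D : L) : Type := AdjoinRoot (ff p D)

/-- the function `x` -/
noncomputable def xx (D : L) : BR p D := AdjoinRoot.root (ff p D)

/-- the function `y` -/
noncomputable def yy (D : L) : BR p D := AdjoinRoot.of (ff p D) X

/-- the constants -/
noncomputable def cc (D : L) (a : L) : BR p D := AdjoinRoot.of (ff p D) (C a)

theorem ff_monic [Fact p.Prime] (D : L) : (ff p D).Monic :=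
  monic_X_pow_sub_C _ (Fact.out (p := p.Prime)).ne_zero

theorem ff_natDegree [Fact p.Prime] (D : L) : (ff p D).natDegree = p :=
  natDegree_X_pow_sub_C

/-- the equation of the curve -/
theorem curve_eq (D : L) : yy p D ^ 2 + cc p D D * yy p D = xx p D ^ p := by
  have h : AdjoinRoot.mk (ff p D) (X ^ p - C (X ^ 2 + C D * X)) = 0 := by
    rw [AdjoinRoot.mk_eq_zero]
    exact dvd_rfl
  rw [map_sub, map_pow, AdjoinRoot.mk_X, AdjoinRoot.mk_C, sub_eq_zero, map_add, map_mul, map_pow] at h
  exact h.symm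

theorem natDegree_quad (D : L) : (X ^ 2 + C D * X : L[X]).natDegree = 2 := by
  compute_degree!

/-- the polynomial is irreducible -/
theorem ff_irr [Fact p.Prime] [Fact (p ≠ 2)] (D : L) : Irreducible (ff p D) := by
  have hp := (Fact.out (p := p.Prime))
  have hp2 : p ≠ 2 := Fact.out
  rw [(ff_monic p D).irreducible_iff_irreducible_map_fraction_map (K := FractionRing L[X])]
  have h1 : (ff p D).map (algebraMap L[X] (FractionRing L[X])) =
      X ^ p - C (algebraMap L[X] (FractionRing L[X]) (X ^ 2 + C D * X)) := by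
    unfold ff
    rw [Polynomial.map_sub, Polynomial.map_pow, map_X, map_C]
  rw [h1]
  refine X_pow_sub_C_irreducible_of_prime hp ?_
  intro b hb
  -- `b` is integral, so a polynomial
  have hint : IsIntegral L[X] b := by
    refine IsIntegral.of_pow hp.pos ?_
    rw [hb]
    exact isIntegral_algebraMap
  obtain ⟨c, hc⟩ := IsIntegrallyClosed.isIntegral_iff.1 hint
  rw [← hc, ← map_pow] at hb
  have h2 := IsFractionRing.injective L[X] (FractionRing L[X]) hb
  have h3 := congrArg natDegree h2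
  rw [natDegree_pow, natDegree_quad] at h3
  have h4 : p ∣ 2 := ⟨_, h3.symm⟩
  exact hp2 ((Nat.prime_dvd_prime_iff_eq hp Nat.prime_two).1 h4)

instance instIsDomain [Fact p.Prime] [Fact (p ≠ 2)] (D : L) : IsDomain (BR p D) :=
  AdjoinRoot.isDomain_of_prime ((ff_irr p D).prime)

theorem eval₂_ff {S : Type} [CommRing S] (i : L[X] →+* S) (a : S) (D : L) :
    (ff p D).eval₂ i a = a ^ p - i (X ^ 2 + C D * X) := by
  unfold ff
  rw [eval₂_sub, eval₂_X_pow, eval₂_C]

/-- the automorphism `x ↦ ζ x` -/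
noncomputable def sg (D ζ : L) (h : ζ ^ p = 1) : BR p D →ₐ[L[X]] BR p D :=
  AdjoinRoot.liftAlgHom (ff p D) (Algebra.ofId L[X] (BR p D)) (cc p D ζ * xx p D) (by
    have h1 : cc p D ζ ^ p = 1 := by
      unfold cc
      rw [← map_pow, ← C_pow, h, map_one, map_one]
    have h2 := curve_eq p D
    rw [eval₂_ff, mul_pow, h1, one_mul, ← h2, sub_eq_zero]
    change _ = (AdjoinRoot.of (ff p D)) (X ^ 2 + C D * X)
    rw [map_add, map_mul, map_pow]
    rfl)

/-- the homomorphism of coordinate rings given by a homomorphism of fields -/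
noncomputable def bc {M : Type} [Field M] (φ : L →+* M) (D : L) (D' : M) (h : φ D = D') : BR p D →+* BR p D' :=
  AdjoinRoot.map (mapRingHom φ) (ff p D) (ff p D') (by
    unfold ff
    rw [Polynomial.map_sub, Polynomial.map_pow, map_X, map_C]
    simp only [coe_mapRingHom, Polynomial.map_add, Polynomial.map_mul, Polynomial.map_pow, map_X, map_C, h]
    exact dvd_rfl)

/-- the automorphism `x ↦ ζ^i x` -/
noncomputable def sgi (D ζ : L) (h : ζ ^ p = 1) (i : ℕ) : BR p D →ₐ[L[X]] BR p D :=
  sg p D (ζ ^ i) (by rw [← pow_mul, mul_comm, pow_mul, h, one_pow])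

/-- the value at the point `(x₀, y₀)` of the curve -/
noncomputable def ev (D x₀ y₀ : L) (h : x₀ ^ p = y₀ ^ 2 + D * y₀) : BR p D →+* L :=
  AdjoinRoot.lift (evalRingHom y₀) x₀ (by
    rw [eval₂_ff, h]
    simp)

theorem sg_xx (D ζ : L) (h : ζ ^ p = 1) : sg p D ζ h (xx p D) = cc p D ζ * xx p D := by
  unfold sg xx
  exact AdjoinRoot.liftAlgHom_root _ _ _ _

theorem sg_of (D ζ : L) (h : ζ ^ p = 1) (g : L[X]) : sg p D ζ h (AdjoinRoot.of (ff p D) g) = AdjoinRoot.of (ff p D) g :=
  (sg p D ζ h).commutes g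

theorem sg_yy (D ζ : L) (h : ζ ^ p = 1) : sg p D ζ h (yy p D) = yy p D := sg_of p D ζ h X

theorem bc_xx {M : Type} [Field M] (φ : L →+* M) (D : L) (D' : M) (h : φ D = D') :
    bc p φ D D' h (xx p D) = xx p D' := by
  unfold bc xx
  exact AdjoinRoot.map_root _ _ _ _

theorem bc_of {M : Type} [Field M] (φ : L →+* M) (D : L) (D' : M) (h : φ D = D') (g : L[X]) :
    bc p φ D D' h (AdjoinRoot.of (ff p D) g) = AdjoinRoot.of (ff p D') (g.map φ) := by
  unfold bc
  exact AdjoinRoot.map_of _ _ _ _ _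

theorem bc_yy {M : Type} [Field M] (φ : L →+* M) (D : L) (D' : M) (h : φ D = D') :
    bc p φ D D' h (yy p D) = yy p D' := by
  unfold yy
  rw [bc_of, map_X]

theorem bc_cc {M : Type} [Field M] (φ : L →+* M) (D : L) (D' : M) (h : φ D = D') (a : L) :
    bc p φ D D' h (cc p D a) = cc p D' (φ a) := by
  unfold cc
  rw [bc_of, map_C]

theorem ev_xx (D x₀ y₀ : L) (h : x₀ ^ p = y₀ ^ 2 + D * y₀) : ev p D x₀ y₀ h (xx p D) = x₀ := by
  unfold ev xx
  exact AdjoinRoot.lift_root _

theorem ev_of (D x₀ y₀ : L) (h : x₀ ^ p = y₀ ^ 2 + D * y₀) (g : L[X]) :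
    ev p D x₀ y₀ h (AdjoinRoot.of (ff p D) g) = g.eval y₀ := by
  unfold ev
  exact AdjoinRoot.lift_of _

theorem ev_yy (D x₀ y₀ : L) (h : x₀ ^ p = y₀ ^ 2 + D * y₀) : ev p D x₀ y₀ h (yy p D) = y₀ := by
  unfold yy
  rw [ev_of, eval_X]

theorem pt1 [Fact p.Prime] (D : L) : (0 : L) ^ p = 0 ^ 2 + D * 0 := by
  rw [zero_pow (Fact.out (p := p.Prime)).ne_zero]
  ring

theorem pt2 [Fact p.Prime] (D : L) : (0 : L) ^ p = (-D) ^ 2 + D * (-D) := by
  rw [zero_pow (Fact.out (p := p.Prime)).ne_zero]
  ring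

/-- the ideal of the point `T = (0, 0)` -/
noncomputable def t1 (D : L) : Ideal (BR p D) := Ideal.span {xx p D, yy p D}

/-- the ideal of the point `- T = (0, - D)` -/
noncomputable def t2 (D : L) : Ideal (BR p D) := Ideal.span {xx p D, yy p D + cc p D D}

/-- the value of the function `y` at the ideal `I`: the norm of `y` from `BR / I` to `L` -/
noncomputable def nm (D : L) (I : Ideal (BR p D)) : L :=
  Algebra.norm L (Ideal.Quotient.mk I (yy p D))

/-- the ideals `I` and `J` belong to the same class -/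
def Sim (D : L) (I J : Ideal (BR p D)) : Prop :=
  ∃ a b : BR p D, a ≠ 0 ∧ b ≠ 0 ∧ Ideal.span {a} * I = Ideal.span {b} * J

/-- `b` is a norm from `L[X] / (X^p - a)` -/
def Nr (a b : L) : Prop := ∃ t : AdjoinRoot (X ^ p - C a : L[X]), Algebra.norm L t = b

/-- `a` is, up to `p`-th powers, the value of `y` at an ideal: `a` is the class of a point of the Jacobian over `L` -/
def Cj (D a : L) : Prop := a ≠ 0 ∧ ∃ I : Ideal (BR p D), I ≠ ⊥ ∧ ∃ s : L, s ≠ 0 ∧ nm p D I = a * s ^ p

end

end Pool.Agent.Q7.CJ
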