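import Pool.Agent.Q7.LK.Main2
import Pool.Agent.Q7.CE.Stm
import Pool.Agent.Q7.CJ.Stm

/-!
# Project CJ (helper7): assembly
-/

set_option autoImplicit false

namespace Pool.Agent.Q7.CJ

open NumberField IsDedekindDomain Filter Topology Finset
open Pool.Agent.Q283.LQ (Sm Box Nest nS)
open Pool.Agent.Q7.LK
open Pool.Agent.Q7.CE (S_ESUM)

/-- the mean of the number of the nontrivial classes is at most `1` -/
theorem mu_le (hsum : S_ESUM) (p : ℕ) [hp : Fact p.Prime] (h2 : p ≠ 2) (F : Type) [Field F] [NumberField F] (ζ : F)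
    (hζ : IsPrimitiveRoot ζ p) :
    ((p : ℝ) ^ (∑ᶠ v : HeightOneSpectrum (𝓞 F), dv p v / 2) *
      (1 / (p : ℝ)) ^ InfinitePlace.nrComplexPlaces F) ≤ 1 := by
  have h1 := hsum p h2 F ζ hζ
  have hp1 : (1 : ℝ) ≤ p := by exact_mod_cast hp.out.one_lt.le
  have hp0 : (p : ℝ) ≠ 0 := by positivity
  have h2 : (p : ℝ) ^ (∑ᶠ v : HeightOneSpectrum (𝓞 F), dv p v / 2) ≤
      (p : ℝ) ^ InfinitePlace.nrComplexPlaces F := pow_le_pow_right₀ hp1 h1
  calc _ ≤ (p : ℝ) ^ InfinitePlace.nrComplexPlaces F *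
      (1 / (p : ℝ)) ^ InfinitePlace.nrComplexPlaces F :=
        mul_le_mul_of_nonneg_right h2 (by positivity)
    _ = 1 := by rw [← mul_pow, mul_one_div_cancel hp0, one_pow]

/-- the share of the `D` which are not bad -/
def Share (p : ℕ) (F : Type) [Field F] [NumberField F] (P : F → Prop) : Prop :=
  ∃ y0 : ℕ, ∀ y, y0 ≤ y → ∀ D0 : F, D0 ≠ 0 → ∀ ε : ℝ, 0 < ε →
  ∃ k0 : ℕ, ∀ k, k0 ≤ k → ∀ z : Fin k → ZMod p, (∀ i, z i ≠ 0) → Nest k fun X =>
    (Box y X : Set (Fin k → HeightOneSpectrum (𝓞 F))).Finite ∧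
    0 < ({q ∈ (Box y X : Set (Fin k → HeightOneSpectrum (𝓞 F))) | ∃ D, Fits p y D0 z q D}.ncard : ℝ) ∧
    (1 - 1 / ((p : ℝ) - 1) - ε) *
        ({q ∈ (Box y X : Set (Fin k → HeightOneSpectrum (𝓞 F))) | ∃ D, Fits p y D0 z q D}.ncard : ℝ) ≤
      ({q ∈ (Box y X : Set (Fin k → HeightOneSpectrum (𝓞 F))) | (∃ D, Fits p y D0 z q D) ∧
        ∀ D, Fits p y D0 z q D → P D}.ncard : ℝ)

theorem share (hshare : S_SHARE) (hloc : S_JLOC) (hsum : S_ESUM) (p : ℕ) [hp : Fact p.Prime] [h2 : Fact (p ≠ 2)]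
    (F : Type) [Field F] [NumberField F] (ζ : F) (hζ : IsPrimitiveRoot ζ p) (P : F → Prop)
    (hP : ∀ D, D ≠ 0 → ¬ Bad p (AJ (F := F) p) D → P D) : Share p F P := by
  obtain ⟨y0, hy0⟩ := hshare p h2.out F ζ hζ
  refine ⟨y0, fun y hy D0 hD0 ε hε => ?_⟩
  obtain ⟨k0, hk0⟩ := hy0 y hy (AJ (F := F) p) (fun v => dv p v / 2) (hloc p F ζ hζ) D0 hD0 ε hε
  refine ⟨k0, fun k hk z hz => nest_mono k _ _ (fun X hX => ?_) (hk0 k hk z hz)⟩
  obtain ⟨hfin, hpos, hN⟩ := hX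
  refine ⟨hfin, hpos, ?_⟩
  set T : Set (Fin k → HeightOneSpectrum (𝓞 F)) :=
    {q ∈ (Box y X : Set (Fin k → HeightOneSpectrum (𝓞 F))) | ∃ D, Fits p y D0 z q D} with hT
  set G : Set (Fin k → HeightOneSpectrum (𝓞 F)) :=
    {q ∈ (Box y X : Set (Fin k → HeightOneSpectrum (𝓞 F))) | (∃ D, Fits p y D0 z q D) ∧
      ∀ D, Fits p y D0 z q D → P D} with hG
  set B : Set (Fin k → HeightOneSpectrum (𝓞 F)) :=
    {q ∈ (Box y X : Set (Fin k → HeightOneSpectrum (𝓞 F))) | ∃ D, Fits p y D0 z q D ∧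
      Bad p (AJ (F := F) p) D} with hB
  have hcov : T ⊆ G ∪ B := by
    intro q hq
    by_cases hg : q ∈ G
    · exact Or.inl hg
    · right
      rw [hG] at hg
      simp only [Set.mem_ofPred_eq, not_and, not_forall] at hg
      obtain ⟨D, hD, hns⟩ := hg hq.1 hq.2
      refine ⟨hq.1, D, hD, ?_⟩
      by_contra hbad
      exact hns (hP D hD.ne hbad)
  have hGf : G.Finite := hfin.subset fun q hq => hq.1
  have hBf : B.Finite := hfin.subset fun q hq => hq.1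
  have h2 : (T.ncard : ℝ) ≤ G.ncard + B.ncard := by
    exact_mod_cast le_trans (Set.ncard_le_ncard hcov (hGf.union hBf)) (Set.ncard_union_le G B)
  have hp1 : (0 : ℝ) < (p : ℝ) - 1 := by
    have : (1 : ℝ) < p := by exact_mod_cast hp.out.one_lt
    linarith
  have h3 : ((p : ℝ) ^ (∑ᶠ v : HeightOneSpectrum (𝓞 F), dv p v / 2) *
      (1 / (p : ℝ)) ^ InfinitePlace.nrComplexPlaces F / ((p : ℝ) - 1) + ε) ≤ 1 / ((p : ℝ) - 1) + ε := by
    have h4 := mu_le hsum p (Fact.out : p ≠ 2) F ζ hζ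
    have h5 := div_le_div_of_nonneg_right h4 hp1.le
    linarith
  have h6 : (B.ncard : ℝ) ≤ (1 / ((p : ℝ) - 1) + ε) * T.ncard := by
    refine le_trans hN (mul_le_mul_of_nonneg_right ?_ (by positivity))
    exact h3
  linarith

end Pool.Agent.Q7.CJ
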